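import Mathlib
import Pool.Agent.Q286.JF.Main

/-! # MP_08d8ea_nt: `#J^{a,1,k}(𝔽_l)` can be even (disproof of Q1)

The curve `y ^ p = x (a - x) ^ k` over `𝔽_l`, where `l ≡ 1 mod p` and `l ∤ a`, has function field
`F = 𝔽_l(x)(y)`. In the range `2 ≤ k ≤ p - 3` the prime `p` does not divide `k + 1`, so the place
`x = ∞` is totally ramified in `F`: exactly one point of the smooth projective model lies over it,
and that point is rational. Therefore the map sending a divisor class of degree zero to its
restriction to the affine part is an isomorphism from `J(𝔽_l) = Pic⁰` onto the class group of the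
integral closure of `𝔽_l[x]` in `F` (Mathlib's `FunctionField.ringOfIntegers`), and
`#J(𝔽_l)` is Mathlib's `FunctionField.classNumber`.

The counterexample is `p = 11`, `a = 8`, `k = 2`, `l = 199`. -/

set_option autoImplicit false

open Polynomial

namespace Pool.Agent.Results.MP_08d8ea_nt.JacobianEvenOrder

/-- The hypotheses of the problem on `p`, `a`, `k`: the prime `p` is greater than `5`, the integer
`a` is even and `p`-th power free, `k ∈ {2, …, p - 3}` and `k ≠ (p - 1) / 2`. -/
structure Admissible (p : ℕ) (a : ℤ) (k : ℕ) : Prop where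
  prime : p.Prime
  five_lt : 5 < p
  even : Even a
  powerFree : ∀ d : ℤ, d ^ p ∣ a → IsUnit d
  two_le : 2 ≤ k
  le : k ≤ p - 3
  ne : 2 * k ≠ p - 1

/-- The hypotheses of the problem on the prime `l`: it is `1` modulo `p`, it does not divide `a`,
and `a` is not a `p`-th power in `𝔽_l`. -/
structure GoodPrime (p : ℕ) (a : ℤ) (l : ℕ) : Prop where
  prime : l.Prime
  mod : l ≡ 1 [MOD p]
  not_dvd : ¬ (l : ℤ) ∣ a
  not_power : ∀ b : ZMod l, b ^ p ≠ (a : ZMod l)

/-- `IsFunctionField p a k l F y`: the field `F` is the finite extension of the rational function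
field `𝔽_l(x)` generated by `y`, where `y ^ p = x (a - x) ^ k`. -/
structure IsFunctionField (p : ℕ) (a : ℤ) (k l : ℕ) [Fact l.Prime] (F : Type) [Field F]
    [Algebra (RatFunc (ZMod l)) F] (y : F) : Prop where
  equation : y ^ p =
    algebraMap (RatFunc (ZMod l)) F (RatFunc.X * ((a : RatFunc (ZMod l)) - RatFunc.X) ^ k)
  generates : IntermediateField.adjoin (RatFunc (ZMod l)) {y} = ⊤

/-- `IsJacobianOrder p a k l n`: the number `n` is the class number of the integral closure of
`𝔽_l[x]` in the function field `F = 𝔽_l(x)(y)` of the curve `y ^ p = x (a - x) ^ k`. For the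
parameters of the problem this is the number of `𝔽_l`-points of the Jacobian, because the smooth
projective model has exactly one point over `x = ∞` and that point is rational. -/
def IsJacobianOrder (p : ℕ) (a : ℤ) (k l : ℕ) [Fact l.Prime] (n : ℕ) : Prop :=
  ∃ (F : Type) (_ : Field F) (_ : Algebra (RatFunc (ZMod l)) F) (_ : Algebra (ZMod l)[X] F)
    (_ : IsScalarTower (ZMod l)[X] (RatFunc (ZMod l)) F) (_ : FunctionField (ZMod l) F)
    (_ : Algebra.IsSeparable (RatFunc (ZMod l)) F) (y : F),
    IsFunctionField p a k l F y ∧ n = FunctionField.classNumber (ZMod l) F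

theorem admissible : Admissible 11 8 2 where
  prime := by norm_num
  five_lt := by norm_num
  even := by decide
  powerFree := by
    intro d hd
    have h0 : d ≠ 0 := by
      rintro rfl
      norm_num at hd
    have h1 : |d ^ 11| ≤ 8 := Int.le_of_dvd (by norm_num) (by rwa [abs_dvd])
    rw [abs_pow] at h1
    rw [Int.isUnit_iff_abs_eq]
    by_contra hne
    have h2 : 2 ≤ |d| := by
      have := Int.one_le_abs h0
      omega
    have h3 : (2 : ℤ) ^ 11 ≤ |d| ^ 11 := pow_le_pow_left₀ (by norm_num) h2 11
    norm_num at h3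
    omega
  two_le := le_rfl
  le := by norm_num
  ne := by norm_num

theorem eight_ne : ((8 : ℤ) : ZMod 199) ≠ 0 := by decide

theorem eight_pow_ne : ((8 : ℤ) : ZMod 199) ^ 18 ≠ 1 := by decide

theorem goodPrime : GoodPrime 11 8 199 where
  prime := by norm_num
  mod := by decide
  not_dvd := by norm_num
  not_power := by
    have := Q286.JF.fact199
    intro b hb
    have hb0 : b ≠ 0 := by
      rintro rfl
      rw [zero_pow (by norm_num)] at hb
      exact eight_ne hb.symm
    have h1 : b ^ 198 = 1 := ZMod.pow_card_sub_one_eq_one hb0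
    have h2 : (b ^ 11) ^ 18 = 1 := by rw [← pow_mul]; exact h1
    rw [hb] at h2
    exact eight_pow_ne h2

section existence

open Q286.JF

theorem radicand_ne_pow (b : RatFunc (ZMod 199)) :
    b ^ 11 ≠ RatFunc.X * (((8 : ℤ) : RatFunc (ZMod 199)) - RatFunc.X) ^ 2 := by
  intro hb
  have e : RatFunc.X * (((8 : ℤ) : RatFunc (ZMod 199)) - RatFunc.X) ^ 2 =
      algebraMap (ZMod 199)[X] (RatFunc (ZMod 199)) (X * (C 8 - X) ^ 2) := by
    rw [map_mul, map_pow, map_sub, RatFunc.algebraMap_X, RatFunc.algebraMap_C, map_ofNat]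
    norm_num
  have hdeg : (X * (C 8 - X) ^ 2 : (ZMod 199)[X]).natDegree = 3 := by
    compute_degree!
  have hb0 : b ≠ 0 := by
    rintro rfl
    rw [zero_pow (by norm_num), e] at hb
    have := (map_eq_zero_iff _ (IsFractionRing.injective (ZMod 199)[X] (RatFunc (ZMod 199)))).1
      hb.symm
    rw [this] at hdeg
    simp at hdeg
  have h11 : ∀ n : ℕ, RatFunc.intDegree (b ^ n) = n * RatFunc.intDegree b := by
    intro n
    induction n with
    | zero => simp
    | succ n ih =>
      rw [pow_succ, RatFunc.intDegree_mul (pow_ne_zero _ hb0) hb0, ih]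
      push_cast
      ring
  have h := h11 11
  rw [hb, e, RatFunc.intDegree_polynomial, hdeg] at h
  omega

theorem exists_order : ∃ n, IsJacobianOrder 11 8 2 199 n := by
  let K := RatFunc (ZMod 199)
  let r : K := RatFunc.X * (((8 : ℤ) : K) - RatFunc.X) ^ 2
  let f : K[X] := X ^ 11 - C r
  have hirr : Irreducible f :=
    X_pow_sub_C_irreducible_of_prime (by norm_num) radicand_ne_pow
  have : Fact (Irreducible f) := ⟨hirr⟩
  let y : AdjoinRoot f := AdjoinRoot.root f
  have hy : y ^ 11 = algebraMap K (AdjoinRoot f) r := by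
    have h := AdjoinRoot.eval₂_root f
    simp only [f, eval₂_sub, eval₂_pow, eval₂_X, eval₂_C] at h
    exact sub_eq_zero.1 h
  have hgen : IntermediateField.adjoin K {y} = ⊤ := IntermediateField.adjoin_root_eq_top f
  have hfin : FiniteDimensional K (AdjoinRoot f) :=
    (AdjoinRoot.powerBasis hirr.ne_zero).finite
  have hr0 : r ≠ 0 := by
    intro h
    exact radicand_ne_pow 0 (by rw [zero_pow (by norm_num)]; exact h.symm)
  have h11 : (11 : K) ≠ 0 := by
    have h1 : (11 : ZMod 199) ≠ 0 := by decide
    have h2 := (map_ne_zero_iff (algebraMap (ZMod 199) K)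
      (algebraMap (ZMod 199) K).injective).2 h1
    rwa [map_ofNat] at h2
  have hsepf : f.Separable := separable_X_pow_sub_C r h11 hr0
  have hsep : Algebra.IsSeparable K (AdjoinRoot f) := by
    have h1 : IsSeparable K y := by
      rw [IsSeparable]
      refine hsepf.of_dvd (minpoly.dvd K y ?_)
      simp only [f, map_sub, map_pow, aeval_X, aeval_C, hy, sub_self]
    have h2 : Algebra.IsSeparable K (IntermediateField.adjoin K {y}) :=
      (IntermediateField.isSeparable_adjoin_simple_iff_isSeparable K (AdjoinRoot f)).2 h1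
    rw [hgen] at h2
    exact AlgEquiv.Algebra.isSeparable (IntermediateField.topEquiv (F := K) (E := AdjoinRoot f))
  exact ⟨_, AdjoinRoot f, inferInstance, inferInstance, inferInstance, inferInstance, hfin, hsep,
    y, ⟨hy, hgen⟩, rfl⟩

end existence

/-- **Disproof of Q1.** There are admissible `p`, `a`, `k` and a prime `l ≡ 1 mod p` with `l ∤ a`
and `a` not a `p`-th power in `𝔽_l`, for which `#J^{a,1,k}(𝔽_l)` is even. -/
theorem result : ∃ (p : ℕ) (a : ℤ) (k l : ℕ) (_ : Fact l.Prime),
    Admissible p a k ∧ GoodPrime p a l ∧ (∃ n, IsJacobianOrder p a k l n) ∧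
      ∀ n, IsJacobianOrder p a k l n → Even n := by
  refine ⟨11, 8, 2, 199, Q286.JF.fact199, admissible, goodPrime, exists_order, ?_⟩
  rintro n ⟨F, i1, i2, i3, i4, i5, i6, y, ⟨hy, hg⟩, rfl⟩
  rw [even_iff_two_dvd]
  exact Q286.JF.main F y (by simpa using hy) hg

end Pool.Agent.Results.MP_08d8ea_nt.JacobianEvenOrder
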